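import Pool.Agent.Helper92.RK.Main2

/-!
# General hypersurfaces of multidegree `(2, ..., 2, m)` in `(P^1)^r × P^b`

`M` is a finite set of exponents of monomials in the affine coordinates `t_1, ..., t_b` of the
base `P^b`, for example all exponents of degree at most `m`.  The family `a` consists of the
coefficients of a polynomial `form a` in `x_1, ..., x_r` and `t_1, ..., t_b`, of degree at most two
in each `x_i` and with exponents `M` in the `t_j`; if `M` is the set of all exponents of degree at
most `m` then this is the general polynomial of a hypersurface of multidegree `(2, ..., 2, m)` in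
`(P^1)^r × P^b`, which is smooth, has the canonical class `(0, ..., 0, m - b - 1)` and is fibred in
Calabi-Yau hypersurfaces of `(P^1)^r` over `P^b`.
-/

namespace Pool.Agent.Results.MP_9410e4_ag.PositiveKodairaDimension

open MvPolynomial AlgebraicGeometry CategoryTheory Pool.Agent.Helper15 Pool.Agent.Helper92.RK

theorem result {r b : ℕ} (hr : 2 ≤ r) (M : Finset (Fin b →₀ ℕ))
    (hM : (0 ∈ M ∧ 2 ≤ M.card ∧ M.card ≤ r) ∨
      (b = 1 ∧ ∃ m, 3 ≤ m ∧ m ≤ r + 1 ∧ ∀ β, β ∈ M ↔ ∑ j, β j ≤ m)) :
    ∃ Δ : MvPolynomial ((Fin r → Fin 3) × M) ℚ, Δ ≠ 0 ∧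
    ∀ (K : Type) [Field K] [NumberField K] (a : (Fin r → Fin 3) × M → K), aeval a Δ ≠ 0 →
      (Ideal.span {form a}).IsPrime ∧
      ∀ (X : Scheme.{0}) (s : X ⟶ Spec (CommRingCat.of K)) [IrreducibleSpace X],
        BirationalOver K X (Spec (CommRingCat.of
          (MvPolynomial (Fin r ⊕ Fin b) K ⧸ Ideal.span {form a}))) s
          (Spec.map (CommRingCat.ofHom
            (algebraMap K (MvPolynomial (Fin r ⊕ Fin b) K ⧸ Ideal.span {form a})))) →
        PotentiallyDense K X s := by
  rcases hM with ⟨h0, h2, h3⟩ | ⟨rfl, m, h1, h2, h3⟩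
  · exact main h0 h2 h3
  · obtain rfl : M = Helper60.RK.M1 m := by
      ext β
      rw [h3]
      unfold Helper60.RK.M1
      simp only [Finset.mem_image, Finset.mem_range, Fin.sum_univ_one, Fin.isValue]
      constructor
      · intro h
        refine ⟨β 0, by omega, Finsupp.ext fun i => ?_⟩
        rw [Subsingleton.elim i 0, Finsupp.single_eq_same]
      · rintro ⟨k, hk, rfl⟩
        rw [Finsupp.single_eq_same]
        omega
    exact main2 hr h1 h2

end Pool.Agent.Results.MP_9410e4_ag.PositiveKodairaDimension
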